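import Pool.Agent.TH821.HexStage

set_option autoImplicit false

/-!
# One stage and the periodic chain of the pretzel knots P(3, -(2q+1), 2b+1)

`X, V, W` are order automorphisms of a complete linear order with `X V W = 1`, `R` (the power
`V ^ (q-1)`) follows `V` and `F` (the power `W ^ b`) follows `W`.

Before the stage `A = X² V² R`, `C = W F X⁻¹`; after the stage `A' = A W = X² V R X⁻¹`,
`C' = F X⁻²`.
-/

namespace Pool.Agent.N463.PZ

open Pool.Agent.TH821.Hex

variable {Ω : Type*} [CompleteLinearOrder Ω]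

/-- One stage. -/
structure PStage (X V W F R : Ω ≃o Ω) : Prop where
  prod : ∀ v, X (V (W v)) = v
  vR : Follows V R
  wF : Follows W F

theorem PStage.dual {X V W F R : Ω ≃o Ω} (h : PStage X V W F R) :
    PStage (Ω := Ωᵒᵈ) X.dual V.dual W.dual F.dual R.dual :=
  ⟨fun v => h.prod v, h.vR.dual, h.wF.dual⟩

section stage
variable {X V W F R : Ω ≃o Ω}

theorem PStage.vwx (h : PStage X V W F R) (v : Ω) : V (W (X v)) = v :=
  X.injective (h.prod (X v))

theorem PStage.vw (h : PStage X V W F R) (y : Ω) : V (W y) = X.symm y := by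
  rw [← X.injective.eq_iff, h.prod, X.apply_symm_apply]

/-- `y ≤ A y`, `y ≤ C y` and `y ≤ X y` only if everything is fixed. -/
theorem PStage.xdown (h : PStage X V W F R) {y : Ω} (hA : y ≤ X (X (V (V (R y)))))
    (hC : y ≤ W (F (X.symm y))) (hx : y ≤ X y) : X y = y ∧ V y = y ∧ W y = y := by
  set z := X.symm y with hz
  have hXz : X z = y := X.apply_symm_apply y
  have hzy : z ≤ y := by rw [hz, X.symm_apply_le]; exact hx
  -- `W z ≤ V (R y)`
  have h1 : X.symm z ≤ V (V (R y)) := by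
    rw [← X.le_iff_le, X.apply_symm_apply, ← X.le_iff_le, hXz]; exact hA
  have h2 : W z ≤ V (R y) := by
    rw [← V.le_iff_le, h.vw]; exact h1
  rcases le_or_gt (W y) y with h3 | h3
  · -- everything is fixed
    have h4 : F y ≤ y := h.wF.down y h3
    have h5 : W (F z) ≤ W (F y) := W.le_iff_le.mpr (F.le_iff_le.mpr hzy)
    have h6 : W (F y) ≤ W y := W.le_iff_le.mpr h4
    have e1 : W (F z) = W (F y) := le_antisymm h5 (h6.trans (h3.trans hC))
    have e2 : z = y := F.injective (W.injective e1)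
    have e3 : W y = y := le_antisymm h3 (hC.trans (h5.trans h6))
    have e4 : X y = y := by rw [e2] at hXz; exact hXz
    have e5 : V y = y := by
      have := h.vw y
      rw [e3, ← hz, e2] at this; exact this
    exact ⟨e4, e5, e3⟩
  · exfalso
    -- `z ≤ W z`
    have h4 : z ≤ W z := by
      by_contra h5
      rw [not_le] at h5
      have h6 : F z ≤ z := h.wF.down z h5.le
      have h7 : W (F z) ≤ W z := W.le_iff_le.mpr h6
      exact absurd (hC.trans h7) (not_le.mpr (h5.trans_le hzy))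
    -- `V⁻¹ (W z) = W (X (W z))`
    have h5 : W (X z) ≤ W (X (W z)) := W.le_iff_le.mpr (X.le_iff_le.mpr h4)
    have h6 : V (W (X (W z))) = W z := h.vwx _
    have h7 : W (X (W z)) ≤ R y := by
      rw [← V.le_iff_le, h6]; exact h2
    rw [hXz] at h5
    have h8 : V y < y := by
      have e1 : V (W y) = z := h.vw y
      have := V.lt_iff_lt.mpr h3
      rw [e1] at this
      exact this.trans_le hzy
    exact absurd (h3.trans_le (h5.trans h7)) (not_lt.mpr (h.vR.down y h8.le))

/-- If everything is fixed, `A y = y`. -/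
theorem PStage.A_fix (h : PStage X V W F R) {y : Ω} (hx : X y = y) (hv : V y = y) :
    X (X (V (V (R y)))) = y := by
  rw [h.vR.fix hv, hv, hv, hx, hx]

theorem PStage.w_fix (h : PStage X V W F R) {y : Ω} (hx : X y = y) (hv : V y = y) : W y = y := by
  have h1 : V (W y) = y := by
    rw [h.vw, OrderIso.symm_apply_eq]; exact hx.symm
  exact V.injective (h1.trans hv.symm)

theorem PStage.C_fix (h : PStage X V W F R) {y : Ω} (hx : X y = y) (hv : V y = y) :
    W (F (X.symm y)) = y := by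
  have hw := h.w_fix hx hv
  have hs : X.symm y = y := by rw [OrderIso.symm_apply_eq]; exact hx.symm
  rw [hs, h.wF.fix hw, hw]

/-- `A' = A W`. -/
theorem PStage.A'_eq (h : PStage X V W F R) (y : Ω) :
    X (X (V (R (X.symm y)))) = X (X (V (V (R (W y))))) := by
  congr 2
  rw [h.vR.comm, ← h.vR.comm, ← h.vw, ← h.vR.comm]

/-- **Propagation.** -/
theorem PStage.prop (h : PStage X V W F R) {y : Ω} (hA : y ≤ X (X (V (V (R y)))))
    (hC : y ≤ W (F (X.symm y)))
    (hne : ¬ (X (X (V (V (R y)))) = y ∧ W (F (X.symm y)) = y)) :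
    ∃ p, p ≤ y ∧ p ≤ X (X (V (R (X.symm p)))) ∧ W (F (X.symm y)) < F (X.symm (X.symm p)) := by
  have hx : X y < y := by
    by_contra h1
    rw [not_lt] at h1
    obtain ⟨h2, h3, _⟩ := h.xdown hA hC h1
    exact hne ⟨h.A_fix h2 h3, h.C_fix h2 h3⟩
  set u := X.symm y with hu
  have hXu : X u = y := X.apply_symm_apply y
  have hyu : y < u := by
    rw [← X.lt_iff_lt, hXu]; exact hx
  set ζ := X.symm u with hζ
  have huζ : u < ζ := by
    rw [← X.lt_iff_lt, hXu, hζ, X.apply_symm_apply]; exact hyu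
  have h1 : ζ ≤ V (V (R y)) := by
    rw [← X.le_iff_le, hζ, X.apply_symm_apply, ← X.le_iff_le, hXu]; exact hA
  have hv : y < V y := by
    by_contra h2
    rw [not_lt] at h2
    have h3 : V (V (R y)) ≤ y :=
      (V.le_iff_le.mpr ((V.le_iff_le.mpr (h.vR.down y h2)).trans h2)).trans h2
    exact absurd (hyu.trans huζ) (not_lt.mpr (h1.trans h3))
  have hζv : ζ < V ζ := by
    by_contra h2
    rw [not_lt] at h2
    obtain ⟨n, n1, n2, n3⟩ := fixUD V (hyu.trans huζ).le hv h2
    have h3 : V (V (R y)) < V (V (R n)) :=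
      V.lt_iff_lt.mpr (V.lt_iff_lt.mpr (R.lt_iff_lt.mpr n1))
    rw [h.vR.fix n3, n3, n3] at h3
    exact absurd (h3.trans_le n2) (not_lt.mpr h1)
  -- `V (W u) = ζ`
  have hVWu : V (W u) = ζ := h.vw u
  have hWuζ : W u < ζ := by
    rw [← V.lt_iff_lt, hVWu]; exact hζv
  have hcomm : W (F u) = F (W u) := h.wF.comm u
  rcases le_or_gt y (X (X (V (R u)))) with h2 | h2
  · exact ⟨y, le_rfl, h2, by rw [hcomm]; exact F.lt_iff_lt.mpr hWuζ⟩
  · have h3 : R u < W u := by
      rw [← V.lt_iff_lt, hVWu, ← X.lt_iff_lt, hζ, X.apply_symm_apply, ← X.lt_iff_lt, hXu]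
      exact h2
    have hw : W y < y := by
      by_contra h4
      rw [not_lt] at h4
      have h5 : X (X (V (V (R y)))) ≤ X (X (V (V (R (W y))))) :=
        X.le_iff_le.mpr (X.le_iff_le.mpr (V.le_iff_le.mpr (V.le_iff_le.mpr
          (R.le_iff_le.mpr h4))))
      rw [← h.A'_eq] at h5
      exact absurd (hA.trans h5) (not_le.mpr h2)
    have h4 : W y < R y := hw.trans_le (h.vR.up y hv.le)
    obtain ⟨ρ, r1, r2, r3⟩ := fixUD (R.trans W.symm) hyu.le
      (by rw [OrderIso.trans_apply, lt_symm_iff]; exact h4)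
      (by rw [OrderIso.trans_apply, symm_le_iff']; exact h3.le)
    rw [OrderIso.trans_apply, OrderIso.symm_apply_eq] at r3
    have hVR : V (R ρ) = X.symm ρ := by rw [r3, h.vw]
    refine ⟨X ρ, ?_, ?_, ?_⟩
    · rw [← hXu]; exact X.le_iff_le.mpr r2
    · rw [X.symm_apply_apply, hVR, X.apply_symm_apply]
    · rw [X.symm_apply_apply, hcomm]
      apply F.lt_iff_lt.mpr
      rw [← hVR]
      have h5 : W u ≤ V (R y) := by
        rw [← V.le_iff_le, hVWu]; exact h1
      exact lt_of_le_of_lt h5 (V.lt_iff_lt.mpr (R.lt_iff_lt.mpr r1))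

/-- If `y < C y`, `A y < y` and `W y ≤ y` then there is `p` with `p ≤ A' p` and `p < C' p`. -/
theorem PStage.wup (h : PStage X V W F R) {y : Ω} (hC : y < W (F (X.symm y)))
    (hA : X (X (V (V (R y)))) < y) (hw : W y ≤ y) :
    ∃ p, p ≤ X (X (V (R (X.symm p)))) ∧ p < F (X.symm (X.symm p)) := by
  set u := X.symm y with hu
  have hXu : X u = y := X.apply_symm_apply y
  have hyu : y < u := by
    by_contra h1
    rw [not_lt] at h1
    have h2 : W (F u) ≤ W (F y) := W.le_iff_le.mpr (F.le_iff_le.mpr h1)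
    have h3 : W (F y) ≤ y := (W.le_iff_le.mpr (h.wF.down y hw)).trans hw
    exact absurd hC (not_lt.mpr (h2.trans h3))
  have hvy : u ≤ V y := by
    have := V.le_iff_le.mpr hw
    rwa [h.vw] at this
  have h1 : V (R y) < W u := by
    rw [← V.lt_iff_lt, h.vw, ← X.lt_iff_lt, X.apply_symm_apply, ← X.lt_iff_lt, hXu]
    exact hA
  have h2 : u < W u := by
    have h3 : V y ≤ V (R y) := V.le_iff_le.mpr (h.vR.up y (hyu.le.trans hvy))
    exact lt_of_le_of_lt (hvy.trans h3) h1
  obtain ⟨r, r1, r2, r3⟩ := fixNU W hyu.le hw h2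
  have hXr : X r < r := by
    have := X.lt_iff_lt.mpr r2
    rw [hXu] at this
    exact this.trans_le r1
  have hVr : V r = X.symm r := by
    have := h.vw r
    rwa [r3] at this
  have hVr' : r < V r := by
    rw [hVr, ← X.lt_iff_lt, X.apply_symm_apply]; exact hXr
  refine ⟨X r, ?_, ?_⟩
  · rw [X.symm_apply_apply]
    apply X.le_iff_le.mpr
    have h3 : V r ≤ V (R r) := V.le_iff_le.mpr (h.vR.up r hVr'.le)
    have h4 := X.le_iff_le.mpr h3
    rw [hVr, X.apply_symm_apply] at h4
    exact h4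
  · rw [X.symm_apply_apply, ← hVr]
    have h3 := F.lt_iff_lt.mpr hVr'
    rw [h.wF.fix r3] at h3
    exact hXr.trans h3

/-- `C` does not leave the upper side. -/
theorem PStage.stay (h : PStage X V W F R) {y : Ω} (hC : y < W (F (X.symm y)))
    (hw : y < W y) (hC' : F (X.symm (X.symm y)) ≤ y) : X (X (V (R (X.symm y)))) < y := by
  set u := X.symm y with hu
  have hXu : X u = y := X.apply_symm_apply y
  set ζ := X.symm u with hζ
  have hXζ : X ζ = u := X.apply_symm_apply u
  have hx : u ≤ y := by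
    by_contra h1
    rw [not_le] at h1
    have huζ : u < ζ := by
      rw [← X.lt_iff_lt, hXζ, hXu]; exact h1
    have h2 : W ζ ≤ ζ := by
      by_contra h3
      rw [not_le] at h3
      exact absurd ((h.wF.up ζ h3.le).trans hC') (not_le.mpr (h1.trans huζ))
    obtain ⟨n, n1, n2, n3⟩ := fixUD W (h1.trans huζ).le hw h2
    have h4 := F.le_iff_le.mpr n2
    rw [h.wF.fix n3] at h4
    exact absurd (h4.trans hC') (not_le.mpr n1)
  have hWu : u < W u := by
    by_contra h1
    rw [not_lt] at h1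
    have h2 : W (F u) ≤ u := (W.le_iff_le.mpr (h.wF.down u h1)).trans h1
    exact absurd hC (not_lt.mpr (h2.trans hx))
  have hζu : ζ ≤ u := by
    rw [← X.le_iff_le, hXζ, hXu]; exact hx
  have hVu : V u < ζ := by
    have := V.lt_iff_lt.mpr hWu
    rwa [h.vw] at this
  have hRu : R u ≤ u := h.vR.down u (hVu.le.trans hζu)
  have h3 : V (R u) < ζ := lt_of_le_of_lt (V.le_iff_le.mpr hRu) hVu
  have h4 := X.lt_iff_lt.mpr (X.lt_iff_lt.mpr h3)
  rwa [hXζ, hXu] at h4

end stage

/-- The chain: `linkA` and `linkC` say what `A` and `C` become. -/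
structure PChain (X V W F R : ℕ → Ω ≃o Ω) : Prop where
  st : ∀ j, PStage (X j) (V j) (W j) (F j) (R j)
  linkA : ∀ j y, X (j + 1) (X (j + 1) (V (j + 1) (V (j + 1) (R (j + 1) y))))
    = X j (X j (V j (R j ((X j).symm y))))
  linkC : ∀ j y, W (j + 1) (F (j + 1) ((X (j + 1)).symm y))
    = F j ((X j).symm ((X j).symm y))

theorem PChain.dual {X V W F R : ℕ → Ω ≃o Ω} (h : PChain X V W F R) :
    PChain (Ω := Ωᵒᵈ) (fun j => (X j).dual) (fun j => (V j).dual) (fun j => (W j).dual)
      (fun j => (F j).dual) (fun j => (R j).dual) :=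
  ⟨fun j => (h.st j).dual, fun j y => h.linkA j y, fun j y => h.linkC j y⟩

/-- Period `N`. -/
structure PPer (N : ℕ) (X V W F R : ℕ → Ω ≃o Ω) : Prop where
  X : ∀ j, X (j + N) = X j
  V : ∀ j, V (j + N) = V j
  W : ∀ j, W (j + N) = W j
  F : ∀ j, F (j + N) = F j
  R : ∀ j, R (j + N) = R j

theorem PPer.dual {N : ℕ} {X V W F R : ℕ → Ω ≃o Ω} (h : PPer N X V W F R) :
    PPer (Ω := Ωᵒᵈ) N (fun j => (X j).dual) (fun j => (V j).dual) (fun j => (W j).dual)
      (fun j => (F j).dual) (fun j => (R j).dual) :=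
  ⟨fun j => congrArg OrderIso.dual (h.X j), fun j => congrArg OrderIso.dual (h.V j),
    fun j => congrArg OrderIso.dual (h.W j), fun j => congrArg OrderIso.dual (h.F j),
    fun j => congrArg OrderIso.dual (h.R j)⟩

section chain
variable {X V W F R : ℕ → Ω ≃o Ω} {N : ℕ}

/-- an increasing sequence is not periodic. -/
theorem no_incr {u : ℕ → Ω} (hN : 0 < N) {i : ℕ} (hp : u (i + N) = u i)
    (h : ∀ j, i ≤ j → u j < u (j + 1)) : False := by
  have key : ∀ k, 0 < k → u i < u (i + k) := by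
    intro k hk
    induction k with
    | zero => exact absurd hk (lt_irrefl _)
    | succ k ih =>
      rcases Nat.eq_zero_or_pos k with rfl | hk'
      · exact h i le_rfl
      · exact (ih hk').trans (h (i + k) (Nat.le_add_right _ _))
  have := key N hN
  rw [hp] at this
  exact lt_irrefl _ this

/-- `y ≤ A y` and `y ≤ C y` only if both are equalities. -/
theorem PChain.noboth (h : PChain X V W F R) (hP : PPer N X V W F R) (hN : 0 < N) (i : ℕ) (y : Ω)
    (hA : y ≤ X i (X i (V i (V i (R i y))))) (hC : y ≤ W i (F i ((X i).symm y))) :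
    X i (X i (V i (V i (R i y)))) = y ∧ W i (F i ((X i).symm y)) = y := by
  by_contra hne
  have key : ∀ k, ∃ p, p ≤ y ∧ p ≤ X (i + k) (X (i + k) (V (i + k) (V (i + k) (R (i + k) p)))) ∧
      p ≤ W (i + k) (F (i + k) ((X (i + k)).symm p)) ∧
      ¬ (X (i + k) (X (i + k) (V (i + k) (V (i + k) (R (i + k) p)))) = p ∧
        W (i + k) (F (i + k) ((X (i + k)).symm p)) = p) ∧
      W i (F i ((X i).symm y)) ≤ W (i + k) (F (i + k) ((X (i + k)).symm p)) ∧
      (0 < k → W i (F i ((X i).symm y)) < W (i + k) (F (i + k) ((X (i + k)).symm p))) := by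
    intro k
    induction k with
    | zero => exact ⟨y, le_rfl, hA, hC, hne, le_rfl, fun h0 => absurd h0 (lt_irrefl _)⟩
    | succ k ih =>
      obtain ⟨p, p1, p2, p3, p4, p5, -⟩ := ih
      obtain ⟨p', q1, q2, q3⟩ := (h.st (i + k)).prop p2 p3 p4
      rw [← h.linkA] at q2
      rw [← h.linkC] at q3
      have q4 : p' < W (i + k + 1) (F (i + k + 1) ((X (i + k + 1)).symm p')) :=
        lt_of_le_of_lt (q1.trans p3) q3
      exact ⟨p', q1.trans p1, q2, q4.le, fun hh => absurd hh.2 q4.ne', (p5.trans_lt q3).le,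
        fun _ => p5.trans_lt q3⟩
  obtain ⟨p, p1, -, -, -, -, p6⟩ := key N
  have p7 := p6 hN
  rw [hP.W, hP.F, hP.X, (W i).lt_iff_lt, (F i).lt_iff_lt, (X i).symm.lt_iff_lt] at p7
  exact absurd p7 (not_lt.mpr p1)

theorem PChain.noboth' (h : PChain X V W F R) (hP : PPer N X V W F R) (hN : 0 < N) (i : ℕ) (y : Ω)
    (hA : X i (X i (V i (V i (R i y)))) ≤ y) (hC : W i (F i ((X i).symm y)) ≤ y) :
    X i (X i (V i (V i (R i y)))) = y ∧ W i (F i ((X i).symm y)) = y :=
  PChain.noboth (Ω := Ωᵒᵈ) h.dual hP.dual hN i y hA hC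

/-- The three types. -/
theorem PChain.tri (h : PChain X V W F R) (hP : PPer N X V W F R) (hN : 0 < N) (i : ℕ) (y : Ω) :
    (y < W i (F i ((X i).symm y)) ∧ X i (X i (V i (V i (R i y)))) < y) ∨
    (W i (F i ((X i).symm y)) < y ∧ y < X i (X i (V i (V i (R i y))))) ∨
    (X i y = y ∧ V i y = y) := by
  have hfix : X i (X i (V i (V i (R i y)))) = y → W i (F i ((X i).symm y)) = y →
      X i y = y ∧ V i y = y := by
    intro e1 e2
    rcases le_total y (X i y) with h1 | h1
    · obtain ⟨a, b, _⟩ := (h.st i).xdown e1.ge e2.ge h1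
      exact ⟨a, b⟩
    · obtain ⟨a, b, _⟩ := PStage.xdown (Ω := Ωᵒᵈ) (h.st i).dual (y := y) e1.le e2.le h1
      exact ⟨a, b⟩
  rcases lt_trichotomy y (W i (F i ((X i).symm y))) with h1 | h1 | h1
  · rcases lt_or_ge (X i (X i (V i (V i (R i y))))) y with h2 | h2
    · exact Or.inl ⟨h1, h2⟩
    · exact absurd (h.noboth hP hN i y h2 h1.le).2 h1.ne'
  · rcases le_total y (X i (X i (V i (V i (R i y))))) with h2 | h2
    · have h3 := h.noboth hP hN i y h2 h1.le
      exact Or.inr (Or.inr (hfix h3.1 h3.2))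
    · have h3 := h.noboth' hP hN i y h2 h1.ge
      exact Or.inr (Or.inr (hfix h3.1 h3.2))
  · rcases lt_or_ge y (X i (X i (V i (V i (R i y))))) with h2 | h2
    · exact Or.inr (Or.inl ⟨h1, h2⟩)
    · exact absurd (h.noboth' hP hN i y h2 h1.le).2 h1.ne

/-- In the first type `y < W y`. -/
theorem PChain.w_up (h : PChain X V W F R) (hP : PPer N X V W F R) (hN : 0 < N) (i : ℕ) (y : Ω)
    (hC : y < W i (F i ((X i).symm y))) (hA : X i (X i (V i (V i (R i y)))) < y) :
    y < W i y := by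
  by_contra h1
  rw [not_lt] at h1
  obtain ⟨p, p1, p2⟩ := (h.st i).wup hC hA h1
  rw [← h.linkA] at p1
  rw [← h.linkC] at p2
  exact absurd (h.noboth hP hN (i + 1) p p1 p2.le).2 p2.ne'

/-- The first type is kept. -/
theorem PChain.keep (h : PChain X V W F R) (hP : PPer N X V W F R) (hN : 0 < N) (i : ℕ) (y : Ω)
    (hC : y < W i (F i ((X i).symm y))) (hA : X i (X i (V i (V i (R i y)))) < y) :
    y < W (i + 1) (F (i + 1) ((X (i + 1)).symm y)) ∧
      X (i + 1) (X (i + 1) (V (i + 1) (V (i + 1) (R (i + 1) y)))) < y := by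
  have hw := h.w_up hP hN i y hC hA
  have key : W (i + 1) (F (i + 1) ((X (i + 1)).symm y)) ≤ y →
      X (i + 1) (X (i + 1) (V (i + 1) (V (i + 1) (R (i + 1) y)))) < y := by
    intro h1
    rw [h.linkC] at h1
    rw [h.linkA]
    exact (h.st i).stay hC hw h1
  rcases h.tri hP hN (i + 1) y with h1 | ⟨h1, h2⟩ | ⟨h1, h2⟩
  · exact h1
  · exact absurd (key h1.le) (not_lt.mpr h2.le)
  · have h3 := key ((h.st (i + 1)).C_fix h1 h2).le
    rw [(h.st (i + 1)).A_fix h1 h2] at h3
    exact absurd h3 (lt_irrefl _)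

/-- The first type is impossible. -/
theorem PChain.no_first (h : PChain X V W F R) (hP : PPer N X V W F R) (hN : 0 < N) (i : ℕ) (y : Ω)
    (hC : y < W i (F i ((X i).symm y))) (hA : X i (X i (V i (V i (R i y)))) < y) : False := by
  have key : ∀ j, i ≤ j → y < W j (F j ((X j).symm y)) ∧ X j (X j (V j (V j (R j y)))) < y := by
    intro j hj
    induction j, hj using Nat.le_induction with
    | base => exact ⟨hC, hA⟩
    | succ j _ ih => exact h.keep hP hN j y ih.1 ih.2
  refine no_incr (u := fun j => X j (X j (V j (V j (R j y))))) (i := i) hN ?_ ?_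
  · show X (i + N) (X (i + N) (V (i + N) (V (i + N) (R (i + N) y)))) = _
    rw [hP.X, hP.V, hP.R]
  · intro j hj
    show X j (X j (V j (V j (R j y)))) <
      X (j + 1) (X (j + 1) (V (j + 1) (V (j + 1) (R (j + 1) y))))
    rw [h.linkA, (h.st j).A'_eq]
    have hw := h.w_up hP hN j y (key j hj).1 (key j hj).2
    exact (X j).lt_iff_lt.mpr ((X j).lt_iff_lt.mpr ((V j).lt_iff_lt.mpr ((V j).lt_iff_lt.mpr
      ((R j).lt_iff_lt.mpr hw))))

/-- every point is fixed by all `X j`, `V j`. -/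
theorem PChain.fixed (h : PChain X V W F R) (hP : PPer N X V W F R) (hN : 0 < N) (j : ℕ) (y : Ω) :
    X j y = y ∧ V j y = y := by
  rcases h.tri hP hN j y with ⟨h1, h2⟩ | ⟨h1, h2⟩ | h1
  · exact (h.no_first hP hN j y h1 h2).elim
  · exact (PChain.no_first (Ω := Ωᵒᵈ) h.dual hP.dual hN j y h1 h2).elim
  · exact h1

end chain

end Pool.Agent.N463.PZ
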