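import Pool.Agent.N463.PZ.Chain
import Pool.Agent.TH821.HexGroup

set_option autoImplicit false

/-!
# Left-ordered groups and the relations of the pretzel knots P(3, -(2q+1), 2b+1)
-/

namespace Pool.Agent.N463.PZ

open Pool.Agent.W705.Borr Pool.Agent.TH821.Chain Pool.Agent.TH821.Hex

/-- The relations between the generators `x i, v i, w i` and the elements `f i`, `r i`. -/
structure PRel {H : Type*} [Group H] {n : ℕ} (x v w f r : ZMod n → H)
    (a b : Fin 2 → ZMod n → ℕ) : Prop where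
  prod : ∀ i, x i * v i * w i = 1
  vr : ∀ i, Fol (v i) (r i) (a 0 i) (b 0 i)
  wf : ∀ i, Fol (w i) (f i) (a 1 i) (b 1 i)
  relA : ∀ i, x (i + 1) * x (i + 1) * v (i + 1) * v (i + 1) * r (i + 1) =
    x i * x i * v i * v i * r i * w i
  relB : ∀ i, (v (i + 1) * r (i + 1))⁻¹ * (f (i + 1))⁻¹ = x i * (v i * r i)⁻¹ * (f i)⁻¹

section alg
variable {H : Type*} [Group H] {n : ℕ} {x v w f r : ZMod n → H} {a b : Fin 2 → ZMod n → ℕ}

theorem PRel.vw (R : PRel x v w f r a b) (i : ZMod n) : v i * w i = (x i)⁻¹ := by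
  have := R.prod i
  rw [eq_inv_iff_mul_eq_one]
  calc v i * w i * x i = (x i)⁻¹ * (x i * v i * w i) * x i := by group
    _ = 1 := by rw [this]; group

theorem PRel.A' (R : PRel x v w f r a b) (i : ZMod n) :
    x (i + 1) * (x (i + 1) * (v (i + 1) * (v (i + 1) * r (i + 1)))) =
      x i * (x i * (v i * (r i * (x i)⁻¹))) := by
  have hc := (R.vr i).comm
  calc x (i + 1) * (x (i + 1) * (v (i + 1) * (v (i + 1) * r (i + 1))))
      = x (i + 1) * x (i + 1) * v (i + 1) * v (i + 1) * r (i + 1) := by group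
    _ = x i * x i * v i * v i * r i * w i := R.relA i
    _ = x i * x i * v i * (v i * r i) * w i := by group
    _ = x i * (x i * (v i * (r i * (v i * w i)))) := by rw [hc]; group
    _ = _ := by rw [R.vw]

theorem PRel.C' (R : PRel x v w f r a b) (i : ZMod n) :
    w (i + 1) * (f (i + 1) * (x (i + 1))⁻¹) = f i * ((x i)⁻¹ * (x i)⁻¹) := by
  have h1 : ∀ j, w j * (f j * (x j)⁻¹) =
      ((x j * (x j * (v j * (v j * r j)))) * ((v j * r j)⁻¹ * (f j)⁻¹))⁻¹ := by
    intro j
    have hc := (R.wf j).comm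
    have h2 : x j * v j = (w j)⁻¹ := by
      rw [eq_inv_iff_mul_eq_one]; exact R.prod j
    calc w j * (f j * (x j)⁻¹) = (w j * f j) * (x j)⁻¹ := by group
      _ = f j * ((w j)⁻¹)⁻¹ * (x j)⁻¹ := by rw [hc]; group
      _ = f j * (x j * v j)⁻¹ * (x j)⁻¹ := by rw [h2]
      _ = _ := by group
  rw [h1, R.A', R.relB]
  have hc := (R.vr i).comm
  calc (x i * (x i * (v i * (r i * (x i)⁻¹))) * (x i * (v i * r i)⁻¹ * (f i)⁻¹))⁻¹
      = f i * (v i * r i) * (v i * r i)⁻¹ * ((x i)⁻¹ * (x i)⁻¹) := by group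
    _ = _ := by group

end alg

section act
variable {H : Type*} [Group H] [LinearOrder H] (hinv : ∀ a b c : H, a ≤ b ↔ c * a ≤ c * b)

include hinv in
/-- In a left-ordered group the relations force triviality. -/
theorem rel_trivial {n : ℕ} (hn : 0 < n) {x v w f r : ZMod n → H} {a b : Fin 2 → ZMod n → ℕ}
    (R : PRel x v w f r a b) (i : ZMod n) : x i = 1 ∧ v i = 1 := by
  have : NeZero n := ⟨hn.ne'⟩
  have hN0 : ∀ j : ℕ, ((j + n : ℕ) : ZMod n) = (j : ZMod n) := by
    intro j; push_cast; rw [ZMod.natCast_self, add_zero]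
  have hC : PChain (fun j : ℕ => act hinv (x j)) (fun j : ℕ => act hinv (v j))
      (fun j : ℕ => act hinv (w j)) (fun j : ℕ => act hinv (f j))
      (fun j : ℕ => act hinv (r j)) := by
    refine ⟨?_, ?_, ?_⟩
    · intro j
      refine ⟨?_, follows_of_fol hinv (R.vr _), follows_of_fol hinv (R.wf _)⟩
      intro u
      rw [← act_mul, ← act_mul, R.prod, act_one]
    · intro j y
      simp only [← act_inv, ← act_mul]
      rw [Nat.cast_add, Nat.cast_one, R.A' (j : ZMod n)]
    · intro j y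
      simp only [← act_inv, ← act_mul]
      rw [Nat.cast_add, Nat.cast_one, R.C' (j : ZMod n)]
  have hP : PPer n (fun j : ℕ => act hinv (x j)) (fun j : ℕ => act hinv (v j))
      (fun j : ℕ => act hinv (w j)) (fun j : ℕ => act hinv (f j))
      (fun j : ℕ => act hinv (r j)) := by
    refine ⟨?_, ?_, ?_, ?_, ?_⟩ <;> intro j <;> simp only [hN0]
  have hi : ((i.val : ℕ) : ZMod n) = i := ZMod.natCast_zmod_val i
  constructor
  · apply eq_one_of_act hinv
    intro y
    have := (hC.fixed hP hn i.val y).1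
    simp only [hi] at this
    exact this
  · apply eq_one_of_act hinv
    intro y
    have := (hC.fixed hP hn i.val y).2
    simp only [hi] at this
    exact this

end act

section kernel
open Pool.Agent.TH821.Cyc
variable {G : Type*} [Group G] {n : ℕ}

/-- Homomorphisms from the kernel of `d` to a left-ordered group are trivial. -/
theorem hom_trivial (hn : 0 < n) {s X V : G} (hs : s ^ n = 1)
    (hgen : ∀ K : Subgroup G, s ∈ K → X ∈ K → V ∈ K → K = ⊤)
    (d : G →* Multiplicative (ZMod n)) (ds : d s = Multiplicative.ofAdd 1) (dX : d X = 1)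
    (dV : d V = 1) (k b : ℕ)
    (A : s * (X * X * V * V * V ^ k) * s⁻¹ = X * X * V * V * V ^ k * (X * V)⁻¹)
    (B : s * ((V * V ^ k)⁻¹ * ((X * V)⁻¹ ^ b)⁻¹) * s⁻¹ =
      X * (V * V ^ k)⁻¹ * ((X * V)⁻¹ ^ b)⁻¹)
    {H : Type*} [Group H] [LinearOrder H] (hinv : ∀ a b c : H, a ≤ b ↔ c * a ≤ c * b)
    (φ : d.ker →* H) (g : d.ker) : φ g = 1 := by
  set X' : d.ker := ⟨X, dX⟩ with hX'
  set V' : d.ker := ⟨V, dV⟩ with hV'
  set W' : d.ker := (X' * V')⁻¹ with hW'
  have key : ∀ (i : ZMod n) (x y : d.ker), s * x.1 * s⁻¹ = y.1 →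
      φ (ck d s (i + 1) x) = φ (ck d s i y) := by
    intro i x y hxy
    congr 1
    apply Subtype.ext
    show cj s x.1 (i + 1) = cj s y.1 i
    rw [cj_shift hn hs, hxy]
  have R : PRel (fun i => φ (ck d s i X')) (fun i => φ (ck d s i V')) (fun i => φ (ck d s i W'))
      (fun i => φ (ck d s i W') ^ b) (fun i => φ (ck d s i V') ^ k)
      (fun j _ => ![k, b] j) (fun _ _ => 1) := by
    refine ⟨?_, ?_, ?_, ?_, ?_⟩
    · intro i
      show φ (ck d s i X') * φ (ck d s i V') * φ (ck d s i W') = 1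
      rw [← map_mul, ← map_mul, ← map_mul, ← map_mul, hW', mul_inv_cancel, map_one, map_one]
    · intro i; exact Fol.of_pow _ _
    · intro i; exact Fol.of_pow _ _
    · intro i
      have := key i (X' * X' * V' * V' * V' ^ k) (X' * X' * V' * V' * V' ^ k * W') A
      simpa only [map_mul, map_inv, map_pow] using this
    · intro i
      have := key i ((V' * V' ^ k)⁻¹ * (W' ^ b)⁻¹) (X' * (V' * V' ^ k)⁻¹ * (W' ^ b)⁻¹) B
      simpa only [map_mul, map_inv, map_pow] using this
  have triv := fun i => rel_trivial hinv hn R i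
  have h1 : N n s X V ≤ φ.ker.map d.ker.subtype := by
    unfold N
    rw [Subgroup.closure_le]
    rintro _ (⟨i, rfl⟩ | ⟨i, rfl⟩)
    · exact ⟨ck d s i X', (triv i).1, rfl⟩
    · exact ⟨ck d s i V', (triv i).2, rfl⟩
  obtain ⟨g', hg', hgg⟩ := h1 (ker_le hn hs hgen d ds dX dV g.2)
  have : g' = g := Subtype.ext hgg
  rw [← this]; exact hg'

end kernel

end Pool.Agent.N463.PZ
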